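import Mathlib

/-!
# Non-uniqueness of harmonic maps with prescribed dilatation: definitions

`U` is the open upper half plane.  `FF A B z = -A z^2/2 + B z + log (z+1)` (principal branch) is a
conformal map of `U` onto the plane minus two half-lines directed to the left (at the heights `0`
and `π`), `DF A B` is its derivative.  `kk s z = i(1+sz)/(z-s)` and `kinf z = -iz` are the extreme
functions with positive real part.  `MM A B s`, `MA A B`, `MB A B` are primitives of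
`kk s * DF A B`, `kk (-1) * DF A B`, `kinf * DF A B`.
-/

set_option autoImplicit false

namespace Pool.Agent.TH371.Harm

open Complex

noncomputable section

/-- the open upper half plane -/
def U : Set ℂ := {z : ℂ | 0 < z.im}

/-- the conformal map onto a plane with two slits -/
def FF (A B : ℝ) (z : ℂ) : ℂ := -((A : ℂ) / 2) * z ^ 2 + B * z + Complex.log (z + 1)

/-- its derivative -/
def DF (A B : ℝ) (z : ℂ) : ℂ := -(A : ℂ) * z + B + 1 / (z + 1)

/-- the Herglotz kernel of the point `s` of the real axis -/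
def kk (s : ℝ) (z : ℂ) : ℂ := I * (1 + s * z) / (z - s)

/-- the Herglotz kernel of the point `∞` -/
def kinf (z : ℂ) : ℂ := -I * z

/-- a primitive of `kk s * DF A B` for `s ≠ -1` -/
def MM (A B s : ℝ) (z : ℂ) : ℂ :=
  I * (s * FF A B z + (1 + (s : ℂ) ^ 2) *
    (-(A : ℂ) * z + ((-A * s + B + 1 / (s + 1) : ℝ) : ℂ) * Complex.log (z - s)
      - (1 / ((s : ℂ) + 1)) * Complex.log (z + 1)))

/-- a primitive of `kk (-1) * DF A B` -/
def MA (A B : ℝ) (z : ℂ) : ℂ :=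
  I * (-FF A B z + 2 * (-(A : ℂ) * z + ((A + B : ℝ) : ℂ) * Complex.log (z + 1) - 1 / (z + 1)))

/-- a primitive of `kinf * DF A B` -/
def MB (A B : ℝ) (z : ℂ) : ℂ :=
  -I * (-((A : ℂ) / 3) * z ^ 3 + (B : ℂ) / 2 * z ^ 2 + z - Complex.log (z + 1))

/-- parameters -/
def A1 : ℝ := 50001 / 19994
def A2 : ℝ := 1 / 2
def BB : ℝ := 199 / 2

/-- first map: `Q₁ = 1 + m₁ kk s₁ + m₂ kk S₁`, `s₁ = -99/101`, `S₁ = -100` -/
def Q1 (m1 m2 : ℝ) (z : ℂ) : ℂ := 1 + m1 * kk (-99 / 101) z + m2 * kk (-100) z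
def Phi1 (m1 m2 : ℝ) (z : ℂ) : ℂ :=
  FF A1 BB z + m1 * MM A1 BB (-99 / 101) z + m2 * MM A1 BB (-100) z

/-- second map: `Q₂ = 1 + m₁ kk (-1) + m₂ kinf` -/
def Q2 (m1 m2 : ℝ) (z : ℂ) : ℂ := 1 + m1 * kk (-1) z + m2 * kinf z
def Phi2 (m1 m2 : ℝ) (z : ℂ) : ℂ :=
  FF A2 BB z + m1 * MA A2 BB z + m2 * MB A2 BB z

/-- the plane minus the two half-lines `{x ≤ a, y = 0}` and `{x ≤ b, y = π}` -/
def Slit (a b : ℝ) : Set ℂ :=
  {w : ℂ | ¬ (w.im = 0 ∧ w.re ≤ a) ∧ ¬ (w.im = Real.pi ∧ w.re ≤ b)}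

end

end Pool.Agent.TH371.Harm
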