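import Pool.Agent.TH371.Harm.Pieces
import Pool.Agent.TH75.HarmLevel
import Pool.Agent.TH554.HarmTip
import Pool.Agent.TH111.HarmSlit

set_option autoImplicit false

namespace Pool.Agent.TH371.Harm

open Complex Set Topology Filter InnerProductSpace
open scoped ComplexConjugate

/-- The open unit disk. -/
def Disk : Set ℂ := Metric.ball 0 1

/-- The Wirtinger derivative `∂f/∂z = (f_x - i f_y)/2`. -/
noncomputable def dz (f : ℂ → ℂ) (z : ℂ) : ℂ := (fderiv ℝ f z 1 - I * fderiv ℝ f z I) / 2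

/-- The Wirtinger derivative `∂f/∂z̄ = (f_x + i f_y)/2`. -/
noncomputable def dzbar (f : ℂ → ℂ) (z : ℂ) : ℂ := (fderiv ℝ f z 1 + I * fderiv ℝ f z I) / 2

/-- `f` is a sense-preserving harmonic mapping of the unit disk onto `Ω` with dilatation `ω`,
normalised by `f 0 = w₀` and `f_z(0) > 0`. -/
structure IsSolution (Ω : Set ℂ) (ω : ℂ → ℂ) (w₀ : ℂ) (f : ℂ → ℂ) : Prop where
  harmonic : HarmonicOnNhd f Disk
  sense : ∀ z ∈ Disk, ‖dzbar f z‖ < ‖dz f z‖
  dilatation : ∀ z ∈ Disk, conj (dzbar f z) = ω z * dz f z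
  injOn : InjOn f Disk
  image : f '' Disk = Ω
  base : f 0 = w₀
  pos : 0 < (dz f 0).re ∧ (dz f 0).im = 0

theorem wirt {f h g : ℂ → ℂ} {z h' g' : ℂ} (hh : HasDerivAt h h' z) (hg : HasDerivAt g g' z)
    (hf : f =ᶠ[𝓝 z] fun w => h w + conj (g w)) : dz f z = h' ∧ dzbar f z = conj g' := by
  have h1 : HasFDerivAt h ((ContinuousLinearMap.toSpanSingleton ℂ h').restrictScalars ℝ) z :=
    hh.hasFDerivAt.restrictScalars ℝ
  have h2 : HasFDerivAt g ((ContinuousLinearMap.toSpanSingleton ℂ g').restrictScalars ℝ) z :=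
    hg.hasFDerivAt.restrictScalars ℝ
  have h3 := (Complex.conjCLE.toContinuousLinearMap.hasFDerivAt (x := g z)).comp z h2
  have h5 : f =ᶠ[𝓝 z] (h + (Complex.conjCLE.toContinuousLinearMap) ∘ g) := by
    filter_upwards [hf] with w hw
    rw [hw]; simp
  have h4 := (h1.add h3).congr_of_eventuallyEq h5
  have e1 : fderiv ℝ f z 1 = h' + conj g' := by
    rw [h4.fderiv]; simp
  have e2 : fderiv ℝ f z I = I * h' + conj (I * g') := by
    rw [h4.fderiv]; simp
  constructor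
  · unfold dz
    rw [e1, e2, map_mul, conj_I]
    linear_combination (-(h' - conj g') / 2) * I_mul_I
  · unfold dzbar
    rw [e1, e2, map_mul, conj_I]
    linear_combination ((h' - conj g') / 2) * I_mul_I

theorem Disk_isOpen : IsOpen Disk := Metric.isOpen_ball

theorem zero_mem_Disk : (0 : ℂ) ∈ Disk := by simp [Disk]

/-- transfer to the disk -/
theorem isSolution_of (A B a b : ℝ) (hA : 0 < A) (Φ Q κ κ' ω : ℂ → ℂ) (c : ℂ) (w₀ : ℂ)
    (hΦ : ∀ z ∈ U, HasDerivAt Φ (Q z * DF A B z) z)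
    (hQ : ∀ z ∈ U, 1 ≤ (Q z).re)
    (hinj : InjOn (fun z => (((Φ z - c).re : ℝ) : ℂ) + (FF A B z).im * I) U)
    (him : (fun z => (((Φ z - c).re : ℝ) : ℂ) + (FF A B z).im * I) '' U = Slit a b)
    (hκ : ∀ z ∈ Disk, HasDerivAt κ (κ' z) z) (hκ0 : ∀ z ∈ Disk, κ' z ≠ 0)
    (hκi : InjOn κ Disk) (hκim : κ '' Disk = U)
    (hω : ∀ z ∈ Disk, ω z = (Q (κ z) - 1) / (Q (κ z) + 1))
    (hbase : (((Φ (κ 0) - c).re : ℝ) : ℂ) + (FF A B (κ 0)).im * I = w₀)
    (hpos : 0 < ((Q (κ 0) + 1) / 2 * DF A B (κ 0) * κ' 0).re)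
    (hpos0 : ((Q (κ 0) + 1) / 2 * DF A B (κ 0) * κ' 0).im = 0) :
    IsSolution (Slit a b) ω w₀
      (fun z => (((Φ (κ z) - c).re : ℝ) : ℂ) + (FF A B (κ z)).im * I) ∧
    dz (fun z => (((Φ (κ z) - c).re : ℝ) : ℂ) + (FF A B (κ z)).im * I) 0 =
      (Q (κ 0) + 1) / 2 * DF A B (κ 0) * κ' 0 := by
  have hmem : ∀ z ∈ Disk, κ z ∈ U := fun z hz => hκim ▸ mem_image_of_mem κ hz
  set f : ℂ → ℂ := fun z => (((Φ (κ z) - c).re : ℝ) : ℂ) + (FF A B (κ z)).im * I with hf
  set h : ℂ → ℂ := fun z => ((Φ (κ z) - c) + FF A B (κ z)) / 2 with hh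
  set g : ℂ → ℂ := fun z => ((Φ (κ z) - c) - FF A B (κ z)) / 2 with hg
  have hfe : ∀ z, f z = h z + conj (g z) := by
    intro z
    apply Complex.ext
    · simp only [hf, hh, hg, conj_re, div_ofNat_re, add_re, sub_re, ofReal_re, mul_re, ofReal_im,
        I_re, I_im]
      ring
    · simp only [hf, hh, hg, conj_im, div_ofNat_im, add_im, sub_im, ofReal_re, mul_im, ofReal_im,
        I_re, I_im]
      ring
  have dG : ∀ z ∈ Disk, HasDerivAt (fun z => Φ (κ z) - c) (Q (κ z) * DF A B (κ z) * κ' z) z := by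
    intro z hz
    exact ((hΦ _ (hmem z hz)).comp z (hκ z hz)).sub_const c
  have dF : ∀ z ∈ Disk, HasDerivAt (fun z => FF A B (κ z)) (DF A B (κ z) * κ' z) z := by
    intro z hz
    exact (hasDerivAt_FF A B (hmem z hz)).comp z (hκ z hz)
  have dh : ∀ z ∈ Disk, HasDerivAt h ((Q (κ z) + 1) / 2 * DF A B (κ z) * κ' z) z := by
    intro z hz
    have e : (Q (κ z) + 1) / 2 * DF A B (κ z) * κ' z =
      (Q (κ z) * DF A B (κ z) * κ' z + DF A B (κ z) * κ' z) / 2 := by ring
    rw [e]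
    exact ((dG z hz).add (dF z hz)).div_const 2
  have dg : ∀ z ∈ Disk, HasDerivAt g ((Q (κ z) - 1) / 2 * DF A B (κ z) * κ' z) z := by
    intro z hz
    have e : (Q (κ z) - 1) / 2 * DF A B (κ z) * κ' z =
      (Q (κ z) * DF A B (κ z) * κ' z - DF A B (κ z) * κ' z) / 2 := by ring
    rw [e]
    exact ((dG z hz).sub (dF z hz)).div_const 2
  have hw : ∀ z ∈ Disk, dz f z = (Q (κ z) + 1) / 2 * DF A B (κ z) * κ' z ∧
      dzbar f z = conj ((Q (κ z) - 1) / 2 * DF A B (κ z) * κ' z) := by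
    intro z hz
    exact wirt (dh z hz) (dg z hz) (Eventually.of_forall hfe)
  refine ⟨⟨?_, ?_, ?_, ?_, ?_, ?_, ?_⟩, (hw 0 zero_mem_Disk).1⟩
  · intro z hz
    have ah : AnalyticAt ℂ h z := by
      apply DifferentiableOn.analyticAt (s := Disk)
      · intro w hw'
        exact (dh w hw').differentiableAt.differentiableWithinAt
      · exact Disk_isOpen.mem_nhds hz
    have ag : AnalyticAt ℂ g z := by
      apply DifferentiableOn.analyticAt (s := Disk)
      · intro w hw'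
        exact (dg w hw').differentiableAt.differentiableWithinAt
      · exact Disk_isOpen.mem_nhds hz
    have h1 := ah.harmonicAt
    have h2 := ag.harmonicAt_conj
    have h3 := h1.add h2
    refine (harmonicAt_congr_nhds (Eventually.of_forall (fun w => ?_))).2 h3
    rw [hfe]; rfl
  · intro z hz
    rw [(hw z hz).1, (hw z hz).2, Complex.norm_conj]
    have hU := hmem z hz
    have hD : DF A B (κ z) ≠ 0 := by
      intro h0
      have := DF_im_neg A B hA hU
      rw [h0] at this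
      simp at this
    have h1 : 0 < ‖DF A B (κ z) * κ' z‖ := norm_pos_iff.2 (mul_ne_zero hD (hκ0 z hz))
    have hq := hQ _ hU
    have h2 : ‖(Q (κ z) - 1) / 2‖ < ‖(Q (κ z) + 1) / 2‖ := by
      rw [norm_div, norm_div]
      apply div_lt_div_of_pos_right _ (by simp)
      apply lt_of_pow_lt_pow_left₀ 2 (norm_nonneg _)
      rw [← Complex.normSq_eq_norm_sq, ← Complex.normSq_eq_norm_sq, Complex.normSq_apply,
        Complex.normSq_apply]
      simp only [sub_re, add_re, one_re, sub_im, add_im, one_im]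
      nlinarith
    calc ‖(Q (κ z) - 1) / 2 * DF A B (κ z) * κ' z‖
        = ‖(Q (κ z) - 1) / 2‖ * ‖DF A B (κ z) * κ' z‖ := by rw [mul_assoc]; exact norm_mul _ _
      _ < ‖(Q (κ z) + 1) / 2‖ * ‖DF A B (κ z) * κ' z‖ := mul_lt_mul_of_pos_right h2 h1
      _ = ‖(Q (κ z) + 1) / 2 * DF A B (κ z) * κ' z‖ := by
          rw [mul_assoc]; exact (norm_mul _ _).symm
  · intro z hz
    rw [(hw z hz).1, (hw z hz).2, Complex.conj_conj, hω z hz]
    have hq := hQ _ (hmem z hz)
    have : Q (κ z) + 1 ≠ 0 := by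
      intro h0
      have := congrArg Complex.re h0
      simp at this
      linarith
    field_simp
  · intro z hz w hw' hzw
    exact hκi hz hw' (hinj (hmem z hz) (hmem w hw') hzw)
  · rw [← him, ← hκim, ← image_comp]
    rfl
  · exact hbase
  · rw [(hw 0 zero_mem_Disk).1]
    exact ⟨hpos, hpos0⟩

end Pool.Agent.TH371.Harm
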