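import Pool.Agent.TH371.Harm.Main

set_option autoImplicit false

namespace Pool.Agent.TH371.Harm

open Complex Set Topology Filter InnerProductSpace
open scoped ComplexConjugate

theorem I_mem_U : I ∈ U := by show 0 < I.im; simp

theorem kk_I (s : ℝ) : kk s I = 1 := by
  have h : I - (s : ℂ) ≠ 0 := sub_real_ne s I_mem_U
  unfold kk
  rw [div_eq_one_iff_eq h]
  linear_combination (s : ℂ) * I_mul_I

theorem kinf_I : kinf I = 1 := by
  unfold kinf; rw [neg_mul, I_mul_I]; ring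

theorem Q1_I (m1 m2 : ℝ) : Q1 m1 m2 I = 1 + m1 + m2 := by
  unfold Q1; rw [kk_I, kk_I]; ring

theorem Q2_I (m1 m2 : ℝ) : Q2 m1 m2 I = 1 + m1 + m2 := by
  unfold Q2; rw [kk_I, kinf_I]; ring

theorem one_div_I_add_one : (1 : ℂ) / (I + 1) = (1 - I) / 2 := by
  have h : I + 1 ≠ 0 := add_one_ne I_mem_U
  rw [div_eq_div_iff h two_ne_zero]
  linear_combination I_mul_I

theorem DF1_I : DF A1 BB I = 100 - (59998 / 19994 : ℂ) * I := by
  unfold DF A1 BB
  rw [one_div_I_add_one]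
  push_cast
  ring

theorem DF2_I : DF A2 BB I = 100 - I := by
  unfold DF A2 BB
  rw [one_div_I_add_one]
  push_cast
  ring

theorem rot_I : rot I = I := by
  have h := rot_den_ne I_mem_U
  unfold rot
  rw [div_eq_iff h]
  linear_combination (1 / 100 : ℂ) * I_mul_I

/-- the rotation parameter -/
noncomputable def rr : ℝ := ‖(1 / 100 : ℂ) - I‖
noncomputable def uu : ℂ := ((1 / 100 : ℂ) - I) / rr

theorem rr_pos : 0 < rr := by
  unfold rr
  rw [norm_pos_iff]
  intro h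
  have := congrArg Complex.im h
  simp at this

theorem uu_norm : ‖uu‖ = 1 := by
  unfold uu
  rw [norm_div, Complex.norm_real, Real.norm_of_nonneg rr_pos.le]
  exact div_self rr_pos.ne'

theorem Kay_zero (u : ℂ) : Kay u 0 = I := by
  unfold Kay; simp

theorem val2 (m1 m2 : ℝ) :
    (Q2 m1 m2 (Kay uu 0) + 1) / 2 * DF A2 BB (Kay uu 0) * (2 * I * uu / (1 - uu * 0) ^ 2) =
      (((2 + m1 + m2) * 100 * (10001 / 10000) / rr : ℝ) : ℂ) := by
  rw [Kay_zero, Q2_I, DF2_I]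
  have hr : (rr : ℂ) ≠ 0 := by exact_mod_cast rr_pos.ne'
  have h1 : (100 - I) * (2 * I * uu / (1 - uu * 0) ^ 2) =
      200 * (10001 / 10000) / rr := by
    rw [mul_zero, sub_zero, one_pow, div_one]
    unfold uu
    rw [← sub_eq_zero]
    field_simp
    ring_nf
    simp only [I_sq, show I ^ 3 = -I by rw [pow_succ, I_sq]; ring]
    ring
  rw [mul_assoc, h1]
  push_cast
  ring

theorem val1 (m1 m2 : ℝ) :
    (Q1 m1 m2 (rot (Kay uu 0)) + 1) / 2 * DF A1 BB (rot (Kay uu 0)) *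
      ((10001 / 10000) / (1 - Kay uu 0 / 100) ^ 2 * (2 * I * uu / (1 - uu * 0) ^ 2)) =
      (((2 + m1 + m2) * 100 * (10001 / 10000) / rr * (10001 / 9997) : ℝ) : ℂ) := by
  rw [Kay_zero, rot_I, Q1_I, DF1_I]
  have hr : (rr : ℂ) ≠ 0 := by exact_mod_cast rr_pos.ne'
  have hI := rot_den_ne I_mem_U
  have h1 : (100 - (59998 / 19994 : ℂ) * I) *
      ((10001 / 10000) / (1 - I / 100) ^ 2 * (2 * I * uu / (1 - uu * 0) ^ 2)) =
      200 * (10001 / 10000) * (10001 / 9997) / rr := by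
    rw [mul_zero, sub_zero, one_pow, div_one]
    have e1 : (100 - (59998 / 19994 : ℂ) * I) =
        100 * (10000 / 9997) * (1 - I / 100) ^ 3 := by
      ring_nf
      simp only [I_sq, show I ^ 3 = -I by rw [pow_succ, I_sq]; ring]
      ring
    have e2 : 100 * (10000 / 9997 : ℂ) * (1 - I / 100) ^ 3 *
        ((10001 / 10000) / (1 - I / 100) ^ 2 * (2 * I * uu)) =
        100 * (10001 / 9997) * (1 - I / 100) * (2 * I * uu) := by
      field_simp
      try ring
    rw [e1, e2]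
    unfold uu
    rw [← sub_eq_zero]
    field_simp
    ring_nf
    simp only [I_sq, show I ^ 3 = -I by rw [pow_succ, I_sq]; ring]
    ring
  rw [mul_assoc, h1]
  push_cast
  ring

/-- the shear lemma for `Φ - c` -/
theorem shear_sub (A B t1 t2 : ℝ) (hA : 0 < A) (ht1 : -1 < t1) (ht2 : t2 < -1)
    (h1 : -A * t1 + B + 1 / (t1 + 1) = 0) (h2 : -A * t2 + B + 1 / (t2 + 1) = 0)
    (Φ Q : ℂ → ℂ) (c : ℂ) (hΦ : ∀ z ∈ U, HasDerivAt Φ (Q z * DF A B z) z)
    (hQ : ∀ z ∈ U, 1 ≤ (Q z).re)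
    (hc1 : ContinuousWithinAt Φ U (t1 : ℂ)) (hc2 : ContinuousWithinAt Φ U (t2 : ℂ)) :
    InjOn (fun z => (((Φ z - c).re : ℝ) : ℂ) + (FF A B z).im * I) U ∧
    (fun z => (((Φ z - c).re : ℝ) : ℂ) + (FF A B z).im * I) '' U =
      Slit ((Φ t1).re - c.re) ((Φ t2).re - c.re) := by
  have key : ∀ t : ℝ, ContinuousWithinAt Φ U (t : ℂ) →
      Tendsto (fun z => (Φ z - c).re) (𝓝[U] (t : ℂ)) (𝓝 ((Φ t).re - c.re)) := by
    intro t ht
    have h := (Complex.continuous_re.tendsto (Φ t)).comp ht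
    have h3 := h.sub_const c.re
    simpa using h3
  exact shear A B t1 t2 _ _ hA ht1 ht2 h1 h2 (fun z => Φ z - c) Q
    (fun z hz => (hΦ z hz).sub_const c) hQ (key t1 hc1) (key t2 hc2)

theorem FF_im_I (A B : ℝ) : (FF A B I).im = B + (Complex.log (I + 1)).im := by
  unfold FF
  simp [I_sq]

theorem main : ∃ (a b : ℝ) (w₀ : ℂ) (ω f₁ f₂ : ℂ → ℂ),
    DifferentiableOn ℂ ω Disk ∧ MapsTo ω Disk Disk ∧
    IsSolution (Slit a b) ω w₀ f₁ ∧ IsSolution (Slit a b) ω w₀ f₂ ∧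
    ∃ z ∈ Disk, f₁ z ≠ f₂ z := by
  obtain ⟨m1, m2, t1, t2, r1, r2, hm1, hm2, ht1, ht2, ht2', hr1, hr2, hr2', e1, e2, e3, e4,
    E1, E2⟩ := Pool.Agent.TH359.Harm5.exists_masses
  have hA1 : 0 < A1 := by unfold A1; norm_num
  have hA2 : 0 < A2 := by unfold A2; norm_num
  -- the two maps of the half plane
  have S1 := shear_sub A1 BB t1 t2 hA1 (by linarith) ht2' e1 e2 (Phi1 m1 m2) (Q1 m1 m2)
    (Phi1 m1 m2 I) (fun z hz => hasDerivAt_Phi1 m1 m2 hz) (fun z hz => Q1_re m1 m2 hm1 hm2 hz)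
    (Phi1_cont m1 m2 t1 (by linarith [ht1]) (by intro h; rw [h] at ht1; norm_num at ht1)
      (by intro h; rw [h] at ht1; norm_num at ht1))
    (Phi1_cont m1 m2 t2 (by linarith) (by intro h; rw [h] at ht2'; norm_num at ht2')
      (by intro h; rw [h] at ht2; norm_num at ht2))
  have S2 := shear_sub A2 BB r1 r2 hA2 (by linarith) hr2' e3 e4 (Phi2 m1 m2) (Q2 m1 m2)
    (Phi2 m1 m2 I) (fun z hz => hasDerivAt_Phi2 m1 m2 hz) (fun z hz => Q2_re m1 m2 hm1 hm2 hz)
    (Phi2_cont m1 m2 r1 (by linarith)) (Phi2_cont m1 m2 r2 (by linarith))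
  rw [← E1, ← E2] at S2
  set a : ℝ := (Phi1 m1 m2 t1).re - (Phi1 m1 m2 I).re with ha
  set b : ℝ := (Phi1 m1 m2 t2).re - (Phi1 m1 m2 I).re with hb
  set κ2 : ℂ → ℂ := Kay uu with hκ2
  set κ1 : ℂ → ℂ := fun z => rot (Kay uu z) with hκ1
  set ω : ℂ → ℂ := fun z => (Q2 m1 m2 (κ2 z) - 1) / (Q2 m1 m2 (κ2 z) + 1) with hω
  have hbase1 : ((((Phi1 m1 m2 (κ1 0)) - (Phi1 m1 m2 I)).re : ℝ) : ℂ) +
      (FF A1 BB (κ1 0)).im * I = ((BB + (Complex.log (I + 1)).im : ℝ) : ℂ) * I := by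
    have : κ1 0 = I := by rw [hκ1]; simp only [Kay_zero, rot_I]
    rw [this, FF_im_I, sub_self]; simp
  have hbase2 : ((((Phi2 m1 m2 (κ2 0)) - (Phi2 m1 m2 I)).re : ℝ) : ℂ) +
      (FF A2 BB (κ2 0)).im * I = ((BB + (Complex.log (I + 1)).im : ℝ) : ℂ) * I := by
    have : κ2 0 = I := Kay_zero uu
    rw [this, FF_im_I, sub_self]; simp
  have hv : 0 < (2 + m1 + m2) * 100 * (10001 / 10000) / rr := by
    have := rr_pos
    positivity
  have V1 := val1 m1 m2
  have V2 := val2 m1 m2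
  have hmem : ∀ z ∈ Disk, κ2 z ∈ U := fun z hz => Kay_mem uu_norm hz
  have R1 := isSolution_of A1 BB a b hA1 (Phi1 m1 m2) (Q1 m1 m2) κ1
    (fun z => (10001 / 10000) / (1 - Kay uu z / 100) ^ 2 * (2 * I * uu / (1 - uu * z) ^ 2)) ω
    (Phi1 m1 m2 I) (((BB + (Complex.log (I + 1)).im : ℝ) : ℂ) * I)
    (fun z hz => hasDerivAt_Phi1 m1 m2 hz) (fun z hz => Q1_re m1 m2 hm1 hm2 hz) S1.1 S1.2
    (fun z hz => (rot_hasDerivAt (Kay_mem uu_norm hz)).comp z (Kay_hasDerivAt uu_norm hz))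
    (by
      intro z hz
      have h1 := rot_den_ne (Kay_mem uu_norm hz)
      have h2 := Kay_den uu_norm hz
      have h3 : uu ≠ 0 := by
        intro h; have := uu_norm; rw [h] at this; simp at this
      have h4 := I_ne_zero
      apply mul_ne_zero
      · exact div_ne_zero (by norm_num) (pow_ne_zero 2 h1)
      · exact div_ne_zero (mul_ne_zero (mul_ne_zero two_ne_zero h4) h3) (pow_ne_zero 2 h2))
    (rot_inj.comp (Kay_inj uu_norm) (fun z hz => Kay_mem uu_norm hz))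
    (by
      have : κ1 '' Disk = rot '' (Kay uu '' Disk) := by rw [← image_comp]; rfl
      rw [this, Kay_image uu_norm, rot_image])
    (by
      intro z hz
      show _ = (Q1 m1 m2 (rot (Kay uu z)) - 1) / (Q1 m1 m2 (rot (Kay uu z)) + 1)
      rw [Q_rot m1 m2 (Kay_mem uu_norm hz)])
    hbase1 
    (by rw [hκ1]; simp only []; rw [V1, ofReal_re]; positivity) (by rw [hκ1]; simp only []; rw [V1, ofReal_im])
  have R2 := isSolution_of A2 BB a b hA2 (Phi2 m1 m2) (Q2 m1 m2) κ2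
    (fun z => (2 * I * uu / (1 - uu * z) ^ 2)) ω
    (Phi2 m1 m2 I) (((BB + (Complex.log (I + 1)).im : ℝ) : ℂ) * I)
    (fun z hz => hasDerivAt_Phi2 m1 m2 hz) (fun z hz => Q2_re m1 m2 hm1 hm2 hz) S2.1 S2.2
    (fun z hz => Kay_hasDerivAt uu_norm hz)
    (by
      intro z hz
      have h2 := Kay_den uu_norm hz
      have h3 : uu ≠ 0 := by
        intro h; have := uu_norm; rw [h] at this; simp at this
      have h4 := I_ne_zero
      exact div_ne_zero (mul_ne_zero (mul_ne_zero two_ne_zero h4) h3) (pow_ne_zero 2 h2))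
    (Kay_inj uu_norm) (Kay_image uu_norm) (fun z _ => rfl) hbase2
    (by rw [hκ2, V2, ofReal_re]; exact hv) (by rw [hκ2, V2, ofReal_im])
  refine ⟨a, b, _, ω, _, _, ?_, ?_, R1.1, R2.1, ?_⟩
  · -- ω analytic
    intro z hz
    have hQd : DifferentiableAt ℂ (fun z => Q2 m1 m2 (κ2 z)) z := by
      have hk : DifferentiableAt ℂ κ2 z := (Kay_hasDerivAt uu_norm hz).differentiableAt
      have hn : κ2 z - ((-1 : ℝ) : ℂ) ≠ 0 := sub_real_ne (-1) (hmem z hz)
      unfold Q2 kk kinf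
      refine ((differentiableAt_const _).add ((differentiableAt_const _).mul ?_)).add
        ((differentiableAt_const _).mul ((differentiableAt_const _).mul hk))
      exact ((differentiableAt_const _).mul ((differentiableAt_const _).add
        ((differentiableAt_const _).mul hk))).div (hk.sub (differentiableAt_const _)) hn
    have hne : Q2 m1 m2 (κ2 z) + 1 ≠ 0 := by
      intro h0
      have := congrArg Complex.re h0
      have h5 := Q2_re m1 m2 hm1 hm2 (hmem z hz)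
      simp at this
      linarith
    exact ((hQd.sub_const 1).div (hQd.add_const 1) hne).differentiableWithinAt
  · -- ω maps the disk to the disk
    intro z hz
    have h5 := Q2_re m1 m2 hm1 hm2 (hmem z hz)
    have hne : Q2 m1 m2 (κ2 z) + 1 ≠ 0 := by
      intro h0
      have := congrArg Complex.re h0
      simp at this
      linarith
    show ω z ∈ Metric.ball 0 1
    rw [Metric.mem_ball, dist_zero_right, hω]
    simp only []
    rw [norm_div, div_lt_one (norm_pos_iff.2 hne)]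
    apply lt_of_pow_lt_pow_left₀ 2 (norm_nonneg _)
    rw [← Complex.normSq_eq_norm_sq, ← Complex.normSq_eq_norm_sq, Complex.normSq_apply,
      Complex.normSq_apply]
    simp only [sub_re, add_re, one_re, sub_im, add_im, one_im]
    nlinarith
  · -- distinct
    by_contra hcon
    push Not at hcon
    have hd1 := R1.2
    have hd2 := R2.2
    have heq : (fun z => ((((Phi1 m1 m2 (κ1 z)) - (Phi1 m1 m2 I)).re : ℝ) : ℂ) +
        (FF A1 BB (κ1 z)).im * I) =ᶠ[𝓝 0] (fun z => ((((Phi2 m1 m2 (κ2 z)) -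
        (Phi2 m1 m2 I)).re : ℝ) : ℂ) + (FF A2 BB (κ2 z)).im * I) := by
      filter_upwards [Disk_isOpen.mem_nhds zero_mem_Disk] with z hz
      exact hcon z hz
    have hdz : dz (fun z => ((((Phi1 m1 m2 (κ1 z)) - (Phi1 m1 m2 I)).re : ℝ) : ℂ) +
        (FF A1 BB (κ1 z)).im * I) 0 = dz (fun z => ((((Phi2 m1 m2 (κ2 z)) -
        (Phi2 m1 m2 I)).re : ℝ) : ℂ) + (FF A2 BB (κ2 z)).im * I) 0 := by
      unfold dz
      rw [heq.fderiv_eq]
    rw [hd1, hd2] at hdz
    have hdz' := V1.symm.trans (hdz.trans V2)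
    have h6 := Complex.ofReal_injective hdz'
    nlinarith

end Pool.Agent.TH371.Harm
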