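import Pool.Agent.TH371.Harm.Disk
import Pool.Agent.TH55.HarmLevel
import Pool.Agent.TH359.Harm5

set_option autoImplicit false

namespace Pool.Agent.TH371.Harm

open Complex Set Topology Filter InnerProductSpace
open scoped ComplexConjugate

theorem shear (A B t1 t2 a1 a2 : ℝ) (hA : 0 < A) (ht1 : -1 < t1) (ht2 : t2 < -1)
    (h1 : -A * t1 + B + 1 / (t1 + 1) = 0) (h2 : -A * t2 + B + 1 / (t2 + 1) = 0)
    (Φ Q : ℂ → ℂ) (hΦ : ∀ z ∈ U, HasDerivAt Φ (Q z * DF A B z) z)
    (hQ : ∀ z ∈ U, 1 ≤ (Q z).re)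
    (hl1 : Tendsto (fun z => (Φ z).re) (𝓝[U] (t1 : ℂ)) (𝓝 a1))
    (hl2 : Tendsto (fun z => (Φ z).re) (𝓝[U] (t2 : ℂ)) (𝓝 a2)) :
    InjOn (fun z => ((Φ z).re : ℂ) + (FF A B z).im * I) U ∧
    (fun z => ((Φ z).re : ℂ) + (FF A B z).im * I) '' U = Slit a1 a2 := by
  refine shear_of A B t1 t2 a1 a2 hA ?_ ?_ ?_ ?_ ?_ Φ Q hΦ hQ hl1 hl2
  · intro y
    obtain ⟨X, h1, h2, h3⟩ := Pool.Agent.TH75.HarmLevel.level_curve A B hA y
    exact ⟨X, h1, h2, h3⟩
  · intro y X L
    exact level_atTop A B hA y X L.eq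
  · intro y X hy0 hyp L
    exact level_zero_bot A B hA y hy0 hyp X L.eq
  · intro X L
    exact Pool.Agent.TH554.HarmTip.level_tip1 A B t1 hA ht1 h1 X L.eq
  · intro X L
    exact Pool.Agent.TH554.HarmTip.level_tip2 A B t2 hA ht2 h2 X L.eq

/-! ### the Cayley map -/

noncomputable def Kay (u : ℂ) (z : ℂ) : ℂ := I * (1 + u * z) / (1 - u * z)

theorem Kay_den {u z : ℂ} (hu : ‖u‖ = 1) (hz : z ∈ Disk) : 1 - u * z ≠ 0 := by
  intro h
  have h1 : u * z = 1 := (sub_eq_zero.1 h).symm
  have h2 : ‖u * z‖ < 1 := by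
    rw [norm_mul, hu, one_mul]
    simpa [Disk] using hz
  rw [h1] at h2
  simp at h2

theorem Kay_mem {u z : ℂ} (hu : ‖u‖ = 1) (hz : z ∈ Disk) : Kay u z ∈ U := by
  have h0 := Kay_den hu hz
  have hn : 0 < normSq (1 - u * z) := normSq_pos.2 h0
  have h2 : ‖u * z‖ < 1 := by
    rw [norm_mul, hu, one_mul]
    simpa [Disk] using hz
  have h3 : normSq (u * z) < 1 := by
    rw [Complex.normSq_eq_norm_sq]
    have := norm_nonneg (u * z)
    nlinarith
  show 0 < (Kay u z).im
  have : (Kay u z).im = (1 - normSq (u * z)) / normSq (1 - u * z) := by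
    unfold Kay
    set w := u * z with hw
    rw [Complex.div_im]
    simp only [Complex.normSq_apply, mul_im, mul_re, I_re, I_im, add_re, add_im, sub_re, sub_im,
      one_re, one_im]
    field_simp
    ring
  rw [this]
  exact div_pos (by linarith) hn

theorem Kay_hasDerivAt {u z : ℂ} (hu : ‖u‖ = 1) (hz : z ∈ Disk) :
    HasDerivAt (Kay u) (2 * I * u / (1 - u * z) ^ 2) z := by
  have h0 := Kay_den hu hz
  have h1 : HasDerivAt (fun z : ℂ => I * (1 + u * z)) (I * u) z := by
    have := (((hasDerivAt_id z).const_mul u).const_add 1).const_mul I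
    simpa using this
  have h2 : HasDerivAt (fun z : ℂ => 1 - u * z) (-u) z := by
    have := ((hasDerivAt_id z).const_mul u).const_sub 1
    simpa using this
  have h := h1.div h2 h0
  have e : 2 * I * u / (1 - u * z) ^ 2 =
      (I * u * (1 - u * z) - I * (1 + u * z) * (-u)) / (1 - u * z) ^ 2 := by
    congr 1; ring
  rw [e]
  exact h

theorem Kay_inj {u : ℂ} (hu : ‖u‖ = 1) : InjOn (Kay u) Disk := by
  intro z hz w hw h
  have h0 := Kay_den hu hz
  have h1 := Kay_den hu hw
  have hu0 : u ≠ 0 := by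
    intro h; rw [h] at hu; simp at hu
  unfold Kay at h
  rw [div_eq_div_iff h0 h1] at h
  have h2 : 2 * I * u * (z - w) = 0 := by linear_combination h
  have h3 : z - w = 0 := by
    rcases mul_eq_zero.1 h2 with h4 | h4
    · rcases mul_eq_zero.1 h4 with h5 | h5
      · simp [I_ne_zero] at h5
      · exact absurd h5 hu0
    · exact h4
  exact sub_eq_zero.1 h3

theorem Kay_image {u : ℂ} (hu : ‖u‖ = 1) : Kay u '' Disk = U := by
  ext w
  constructor
  · rintro ⟨z, hz, rfl⟩
    exact Kay_mem hu hz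
  · intro hw
    have hwi : 0 < w.im := hw
    have hu0 : u ≠ 0 := by
      intro h; rw [h] at hu; simp at hu
    have hd : w + I ≠ 0 := by
      intro h
      have := congrArg Complex.im h
      simp at this
      linarith
    have hz : u⁻¹ * ((w - I) / (w + I)) ∈ Disk := by
      simp only [Disk, Metric.mem_ball, dist_zero_right]
      rw [norm_mul, norm_inv, hu, inv_one, one_mul, norm_div]
      rw [div_lt_one (norm_pos_iff.2 hd)]
      apply lt_of_pow_lt_pow_left₀ 2 (norm_nonneg _)
      rw [← Complex.normSq_eq_norm_sq, ← Complex.normSq_eq_norm_sq, Complex.normSq_apply,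
        Complex.normSq_apply]
      simp only [sub_re, add_re, sub_im, add_im, I_re, I_im]
      nlinarith
    refine ⟨_, hz, ?_⟩
    have h1 : u * (u⁻¹ * ((w - I) / (w + I))) = (w - I) / (w + I) := by
      rw [← mul_assoc, mul_inv_cancel₀ hu0, one_mul]
    unfold Kay
    rw [h1]
    have h2 : 1 - (w - I) / (w + I) = 2 * I / (w + I) := by
      field_simp; ring
    have h3 : 1 + (w - I) / (w + I) = 2 * w / (w + I) := by
      field_simp; ring
    rw [h2, h3]
    field_simp

/-! ### the rotation -/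

theorem rot_hasDerivAt {z : ℂ} (hz : z ∈ U) :
    HasDerivAt rot ((10001 / 10000) / (1 - z / 100) ^ 2) z := by
  have h0 := rot_den_ne hz
  have h1 : HasDerivAt (fun z : ℂ => z + 1 / 100) 1 z := (hasDerivAt_id z).add_const _
  have h2 : HasDerivAt (fun z : ℂ => 1 - z / 100) (-(1 / 100)) z := by
    have := ((hasDerivAt_id z).div_const 100).const_sub 1
    simpa using this
  have h := h1.div h2 h0
  have e : (10001 / 10000 : ℂ) / (1 - z / 100) ^ 2 =
      (1 * (1 - z / 100) - (z + 1 / 100) * (-(1 / 100))) / (1 - z / 100) ^ 2 := by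
    congr 1; ring
  rw [e]
  exact h

theorem rot_inj : InjOn rot U := by
  intro z hz w hw h
  have h0 := rot_den_ne hz
  have h1 := rot_den_ne hw
  unfold rot at h
  rw [div_eq_div_iff h0 h1] at h
  have : z - w = 0 := by
    have h2 : (10001 / 10000 : ℂ) * (z - w) = 0 := by linear_combination h
    rcases mul_eq_zero.1 h2 with h3 | h3
    · norm_num at h3
    · exact h3
  exact sub_eq_zero.1 this

theorem rot_image : rot '' U = U := by
  ext w
  constructor
  · rintro ⟨z, hz, rfl⟩
    exact rot_mem hz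
  · intro hw
    have hwi : 0 < w.im := hw
    have hd : 1 + w / 100 ≠ 0 := by
      intro h
      have := congrArg Complex.im h
      simp at this
      linarith
    have hn : 0 < normSq (1 + w / 100) := normSq_pos.2 hd
    refine ⟨(w - 1 / 100) / (1 + w / 100), ?_, ?_⟩
    · show 0 < ((w - 1 / 100) / (1 + w / 100)).im
      have : ((w - 1 / 100) / (1 + w / 100)).im = w.im * (1 + 1 / 10000) /
          normSq (1 + w / 100) := by
        rw [Complex.div_im]
        simp
        field_simp
        ring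
      rw [this]
      positivity
    · unfold rot
      have h1 : 1 - (w - 1 / 100) / (1 + w / 100) / 100 = (10001 / 10000) / (1 + w / 100) := by
        rw [eq_div_iff hd, sub_mul, div_right_comm, div_mul_cancel₀ _ hd]
        ring
      have h2 : (w - 1 / 100) / (1 + w / 100) + 1 / 100 = (10001 / 10000) * w / (1 + w / 100) := by
        rw [eq_div_iff hd, add_mul, div_mul_cancel₀ _ hd]
        ring
      have hd' : (100 : ℂ) + w ≠ 0 := by
        intro h; apply hd; rw [show w = -100 by linear_combination h]; norm_num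
      rw [h1, h2]
      field_simp

end Pool.Agent.TH371.Harm
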