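import Pool.Agent.TH371.Harm.Shear

set_option autoImplicit false

namespace Pool.Agent.TH371.Harm

open Complex Filter Topology Set

theorem sub_real_mem {z : ℂ} (s : ℝ) (hz : z ∈ U) : z - s ∈ slitPlane := by
  refine Complex.mem_slitPlane_iff.2 (Or.inr ?_)
  have h : 0 < z.im := hz
  simp only [sub_im, ofReal_im, sub_zero]
  exact h.ne'

theorem sub_real_ne {z : ℂ} (s : ℝ) (hz : z ∈ U) : z - s ≠ 0 :=
  slitPlane_ne_zero (sub_real_mem s hz)

theorem hasDerivAt_MM (A B s : ℝ) (hs : s ≠ -1) {z : ℂ} (hz : z ∈ U) :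
    HasDerivAt (MM A B s) (kk s z * DF A B z) z := by
  have h0 := hasDerivAt_FF A B hz
  have h1 : HasDerivAt (fun z : ℂ => Complex.log (z + 1)) (1 / (z + 1)) z :=
    ((hasDerivAt_id z).add_const 1).clog (add_one_mem hz)
  have h2 : HasDerivAt (fun z : ℂ => Complex.log (z - s)) (1 / (z - s)) z :=
    ((hasDerivAt_id z).sub_const (s : ℂ)).clog (sub_real_mem s hz)
  have h3 : HasDerivAt (fun z : ℂ => -(A : ℂ) * z) (-(A : ℂ)) z := by
    simpa using (hasDerivAt_id z).const_mul (-(A : ℂ))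
  have h := ((h0.const_mul (s : ℂ)).add (((h3.add (h2.const_mul
    ((-A * s + B + 1 / (s + 1) : ℝ) : ℂ))).sub (h1.const_mul (1 / ((s : ℂ) + 1)))).const_mul
    (1 + (s : ℂ) ^ 2))).const_mul I
  have hz1 := add_one_ne hz
  have hz2 := sub_real_ne s hz
  have hs1 : (s : ℂ) + 1 ≠ 0 := by
    intro h
    apply hs
    have : ((s + 1 : ℝ) : ℂ) = 0 := by push_cast; exact h
    have := Complex.ofReal_eq_zero.1 this
    linarith
  have e : kk s z * DF A B z = I * (s * DF A B z + (1 + (s : ℂ) ^ 2) * (-(A : ℂ) +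
      ((-A * s + B + 1 / (s + 1) : ℝ) : ℂ) * (1 / (z - s)) -
      (1 / ((s : ℂ) + 1)) * (1 / (z + 1)))) := by
    unfold kk DF
    push_cast
    field_simp
    ring
  rw [e]
  exact h

theorem hasDerivAt_MA (A B : ℝ) {z : ℂ} (hz : z ∈ U) :
    HasDerivAt (MA A B) (kk (-1) z * DF A B z) z := by
  have h0 := hasDerivAt_FF A B hz
  have h1 : HasDerivAt (fun z : ℂ => Complex.log (z + 1)) (1 / (z + 1)) z :=
    ((hasDerivAt_id z).add_const 1).clog (add_one_mem hz)
  have h3 : HasDerivAt (fun z : ℂ => -(A : ℂ) * z) (-(A : ℂ)) z := by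
    simpa using (hasDerivAt_id z).const_mul (-(A : ℂ))
  have hz1 := add_one_ne hz
  have h4 : HasDerivAt (fun z : ℂ => 1 / (z + 1)) (-1 / (z + 1) ^ 2) z := by
    have := ((hasDerivAt_id z).add_const 1).fun_inv hz1
    simpa [one_div] using this
  have h := ((h0.neg).add (((h3.add (h1.const_mul ((A + B : ℝ) : ℂ))).sub h4).const_mul
    (2 : ℂ))).const_mul I
  have e : kk (-1) z * DF A B z = I * (-DF A B z + 2 * (-(A : ℂ) +
      ((A + B : ℝ) : ℂ) * (1 / (z + 1)) - -1 / (z + 1) ^ 2)) := by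
    unfold kk DF
    have : z - ((-1 : ℝ) : ℂ) = z + 1 := by push_cast; ring
    rw [this]
    push_cast
    field_simp
    ring
  rw [e]
  exact h

theorem hasDerivAt_MB (A B : ℝ) {z : ℂ} (hz : z ∈ U) :
    HasDerivAt (MB A B) (kinf z * DF A B z) z := by
  have h1 : HasDerivAt (fun z : ℂ => Complex.log (z + 1)) (1 / (z + 1)) z :=
    ((hasDerivAt_id z).add_const 1).clog (add_one_mem hz)
  have hz1 := add_one_ne hz
  have h2 : HasDerivAt (fun z : ℂ => -((A : ℂ) / 3) * z ^ 3) (-((A : ℂ) / 3) * (3 * z ^ 2)) z := by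
    have := (hasDerivAt_pow 3 z).const_mul (-((A : ℂ) / 3))
    simpa using this
  have h3 : HasDerivAt (fun z : ℂ => (B : ℂ) / 2 * z ^ 2) ((B : ℂ) / 2 * (2 * z)) z := by
    have := (hasDerivAt_pow 2 z).const_mul ((B : ℂ) / 2)
    simpa using this
  have h := (((h2.add h3).add (hasDerivAt_id z)).sub h1).const_mul (-I)
  have e : kinf z * DF A B z = -I * (-((A : ℂ) / 3) * (3 * z ^ 2) + (B : ℂ) / 2 * (2 * z) + 1
      - 1 / (z + 1)) := by
    unfold kinf DF
    field_simp
    ring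
  rw [e]
  exact h

theorem kk_re_pos (s : ℝ) {z : ℂ} (hz : z ∈ U) : 0 < (kk s z).re := by
  have hzi : 0 < z.im := hz
  have h0 := sub_real_ne s hz
  have hn : 0 < normSq (z - s) := normSq_pos.2 h0
  have : (kk s z).re = z.im * (1 + s ^ 2) / normSq (z - s) := by
    unfold kk
    rw [Complex.div_re]
    simp
    field_simp
    ring
  rw [this]
  positivity

theorem kinf_re_pos {z : ℂ} (hz : z ∈ U) : 0 < (kinf z).re := by
  have hzi : 0 < z.im := hz
  unfold kinf
  simpa using hzi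

/-- the rotation of the half plane -/
noncomputable def rot (z : ℂ) : ℂ := (z + 1 / 100) / (1 - z / 100)

theorem rot_den_ne {z : ℂ} (hz : z ∈ U) : 1 - z / 100 ≠ 0 := by
  have hzi : 0 < z.im := hz
  intro h
  have := congrArg Complex.im h
  simp at this
  linarith

theorem rot_mem {z : ℂ} (hz : z ∈ U) : rot z ∈ U := by
  have hzi : 0 < z.im := hz
  have h0 := rot_den_ne hz
  have hn : 0 < normSq (1 - z / 100) := normSq_pos.2 h0
  show 0 < (rot z).im
  have : (rot z).im = z.im * (1 + 1 / 10000) / normSq (1 - z / 100) := by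
    unfold rot
    rw [Complex.div_im]
    simp
    field_simp
    ring
  rw [this]
  positivity

theorem kk_rot1 {z : ℂ} (hz : z ∈ U) : kk (-99 / 101) (rot z) = kk (-1) z := by
  have h0 := rot_den_ne hz
  have h0' : (100 : ℂ) - z ≠ 0 := by
    intro h; apply h0; rw [← sub_eq_zero.1 h]; norm_num
  have h1 := add_one_ne hz
  have e1 : rot z - ((-99 / 101 : ℝ) : ℂ) = (10001 / 10100) * (z + 1) / (1 - z / 100) := by
    unfold rot
    push_cast
    rw [eq_div_iff h0, sub_mul, div_mul_cancel₀ _ h0]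
    ring
  have e2 : 1 + ((-99 / 101 : ℝ) : ℂ) * rot z = (10001 / 10100) * (1 - z) / (1 - z / 100) := by
    unfold rot
    push_cast
    rw [eq_div_iff h0, add_mul, mul_assoc, div_mul_cancel₀ _ h0]
    ring
  unfold kk
  rw [e1, e2]
  have e3 : z - ((-1 : ℝ) : ℂ) = z + 1 := by push_cast; ring
  rw [e3]
  push_cast
  field_simp
  ring

theorem kk_rot2 {z : ℂ} (hz : z ∈ U) : kk (-100) (rot z) = kinf z := by
  have h0 := rot_den_ne hz
  have h0' : (100 : ℂ) - z ≠ 0 := by
    intro h; apply h0; rw [← sub_eq_zero.1 h]; norm_num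
  have e1 : rot z - ((-100 : ℝ) : ℂ) = (10001 / 100) / (1 - z / 100) := by
    unfold rot
    push_cast
    rw [eq_div_iff h0, sub_mul, div_mul_cancel₀ _ h0]
    ring
  have e2 : 1 + ((-100 : ℝ) : ℂ) * rot z = (10001 / 100) * (- z) / (1 - z / 100) := by
    unfold rot
    push_cast
    rw [eq_div_iff h0, add_mul, mul_assoc, div_mul_cancel₀ _ h0]
    ring
  unfold kk kinf
  rw [e1, e2]
  field_simp

theorem Q_rot (m1 m2 : ℝ) {z : ℂ} (hz : z ∈ U) : Q1 m1 m2 (rot z) = Q2 m1 m2 z := by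
  unfold Q1 Q2
  rw [kk_rot1 hz, kk_rot2 hz]

theorem Q1_re (m1 m2 : ℝ) (h1 : 0 < m1) (h2 : 0 < m2) {z : ℂ} (hz : z ∈ U) :
    1 ≤ (Q1 m1 m2 z).re := by
  have a := kk_re_pos (-99 / 101) hz
  have b := kk_re_pos (-100) hz
  have : (Q1 m1 m2 z).re = 1 + m1 * (kk (-99 / 101) z).re + m2 * (kk (-100) z).re := by
    unfold Q1; simp
  rw [this]
  have := mul_pos h1 a
  have := mul_pos h2 b
  linarith

theorem Q2_re (m1 m2 : ℝ) (h1 : 0 < m1) (h2 : 0 < m2) {z : ℂ} (hz : z ∈ U) :
    1 ≤ (Q2 m1 m2 z).re := by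
  have a := kk_re_pos (-1) hz
  have b := kinf_re_pos hz
  have : (Q2 m1 m2 z).re = 1 + m1 * (kk (-1) z).re + m2 * (kinf z).re := by
    unfold Q2; simp
  rw [this]
  have := mul_pos h1 a
  have := mul_pos h2 b
  linarith

theorem hasDerivAt_Phi1 (m1 m2 : ℝ) {z : ℂ} (hz : z ∈ U) :
    HasDerivAt (Phi1 m1 m2) (Q1 m1 m2 z * DF A1 BB z) z := by
  have h0 := hasDerivAt_FF A1 BB hz
  have h1 := hasDerivAt_MM A1 BB (-99 / 101) (by norm_num) hz
  have h2 := hasDerivAt_MM A1 BB (-100) (by norm_num) hz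
  have h := (h0.add (h1.const_mul (m1 : ℂ))).add (h2.const_mul (m2 : ℂ))
  have e : Q1 m1 m2 z * DF A1 BB z = DF A1 BB z + m1 * (kk (-99 / 101) z * DF A1 BB z) +
      m2 * (kk (-100) z * DF A1 BB z) := by
    unfold Q1; ring
  rw [e]
  exact h

theorem hasDerivAt_Phi2 (m1 m2 : ℝ) {z : ℂ} (hz : z ∈ U) :
    HasDerivAt (Phi2 m1 m2) (Q2 m1 m2 z * DF A2 BB z) z := by
  have h0 := hasDerivAt_FF A2 BB hz
  have h1 := hasDerivAt_MA A2 BB hz
  have h2 := hasDerivAt_MB A2 BB hz
  have h := (h0.add (h1.const_mul (m1 : ℂ))).add (h2.const_mul (m2 : ℂ))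
  have e : Q2 m1 m2 z * DF A2 BB z = DF A2 BB z + m1 * (kk (-1) z * DF A2 BB z) +
      m2 * (kinf z * DF A2 BB z) := by
    unfold Q2; ring
  rw [e]
  exact h

/-- the logarithm is continuous up to the real axis from the upper half plane -/
theorem log_cont (s t : ℝ) (h : t ≠ s) :
    ContinuousWithinAt (fun z : ℂ => Complex.log (z - s)) U (t : ℂ) := by
  have hsub : ContinuousWithinAt (fun z : ℂ => z - s) U (t : ℂ) :=
    (continuous_id.sub continuous_const).continuousWithinAt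
  rcases lt_or_gt_of_ne h with h' | h'
  · -- negative real
    have hl : ContinuousWithinAt Complex.log {z : ℂ | 0 ≤ z.im} ((t : ℂ) - s) := by
      apply Complex.continuousWithinAt_log_of_re_neg_of_im_zero
      · simp; linarith
      · simp
    refine ContinuousWithinAt.comp (g := Complex.log) (f := fun z : ℂ => z - s)
      (t := {z : ℂ | 0 ≤ z.im}) hl hsub ?_
    intro z hz
    have : 0 < z.im := hz
    show 0 ≤ (z - s).im
    simp only [sub_im, ofReal_im, sub_zero]
    exact this.le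
  · have hl : ContinuousAt Complex.log ((t : ℂ) - s) := by
      apply continuousAt_clog
      refine Complex.mem_slitPlane_iff.2 (Or.inl ?_)
      simp; linarith
    exact ContinuousAt.comp_continuousWithinAt (g := Complex.log) (f := fun z : ℂ => z - s)
      hl hsub

theorem log_cont1 (t : ℝ) (h : t ≠ -1) :
    ContinuousWithinAt (fun z : ℂ => Complex.log (z + 1)) U (t : ℂ) := by
  have := log_cont (-1) t h
  simpa using this

theorem FF_cont (A B t : ℝ) (h : t ≠ -1) : ContinuousWithinAt (FF A B) U (t : ℂ) := by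
  have h1 := log_cont1 t h
  have h2 : ContinuousWithinAt (fun z : ℂ => -((A : ℂ) / 2) * z ^ 2 + B * z) U (t : ℂ) := by
    apply Continuous.continuousWithinAt
    fun_prop
  exact h2.add h1

theorem MM_cont (A B s t : ℝ) (h : t ≠ -1) (hs : t ≠ s) :
    ContinuousWithinAt (MM A B s) U (t : ℂ) := by
  have h0 := FF_cont A B t h
  have h1 := log_cont1 t h
  have h2 := log_cont s t hs
  have h3 : ContinuousWithinAt (fun z : ℂ => -(A : ℂ) * z) U (t : ℂ) := by
    apply Continuous.continuousWithinAt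
    fun_prop
  exact ((h0.const_mul (s : ℂ)).add (((h3.add (h2.const_mul
    ((-A * s + B + 1 / (s + 1) : ℝ) : ℂ))).sub (h1.const_mul (1 / ((s : ℂ) + 1)))).const_mul
    (1 + (s : ℂ) ^ 2))).const_mul I

theorem MA_cont (A B t : ℝ) (h : t ≠ -1) : ContinuousWithinAt (MA A B) U (t : ℂ) := by
  have h0 := FF_cont A B t h
  have h1 := log_cont1 t h
  have h3 : ContinuousWithinAt (fun z : ℂ => -(A : ℂ) * z) U (t : ℂ) := by
    apply Continuous.continuousWithinAt
    fun_prop
  have h4 : ContinuousWithinAt (fun z : ℂ => 1 / (z + 1)) U (t : ℂ) := by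
    apply ContinuousAt.continuousWithinAt
    apply ContinuousAt.div continuousAt_const (by fun_prop)
    intro h5
    apply h
    have : ((t + 1 : ℝ) : ℂ) = 0 := by push_cast; exact h5
    have := Complex.ofReal_eq_zero.1 this
    linarith
  exact ((h0.neg).add (((h3.add (h1.const_mul ((A + B : ℝ) : ℂ))).sub h4).const_mul
    (2 : ℂ))).const_mul I

theorem MB_cont (A B t : ℝ) (h : t ≠ -1) : ContinuousWithinAt (MB A B) U (t : ℂ) := by
  have h1 := log_cont1 t h
  have h2 : ContinuousWithinAt (fun z : ℂ => -((A : ℂ) / 3) * z ^ 3 + (B : ℂ) / 2 * z ^ 2 + z)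
      U (t : ℂ) := by
    apply Continuous.continuousWithinAt
    fun_prop
  exact (h2.sub h1).const_mul (-I)

theorem Phi1_cont (m1 m2 t : ℝ) (h : t ≠ -1) (h1 : t ≠ -99 / 101) (h2 : t ≠ -100) :
    ContinuousWithinAt (Phi1 m1 m2) U (t : ℂ) :=
  ((FF_cont A1 BB t h).add ((MM_cont A1 BB (-99 / 101) t h h1).const_mul (m1 : ℂ))).add
    ((MM_cont A1 BB (-100) t h h2).const_mul (m2 : ℂ))

theorem Phi2_cont (m1 m2 t : ℝ) (h : t ≠ -1) :
    ContinuousWithinAt (Phi2 m1 m2) U (t : ℂ) :=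
  ((FF_cont A2 BB t h).add ((MA_cont A2 BB t h).const_mul (m1 : ℂ))).add
    ((MB_cont A2 BB t h).const_mul (m2 : ℂ))

end Pool.Agent.TH371.Harm
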