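import Pool.Agent.TH371.Harm.Defs

set_option autoImplicit false

namespace Pool.Agent.TH371.Harm

open Complex Filter Topology Set

theorem add_one_mem {z : ℂ} (hz : z ∈ U) : z + 1 ∈ slitPlane := by
  refine Complex.mem_slitPlane_iff.2 (Or.inr ?_)
  have h : 0 < z.im := hz
  simp only [add_im, one_im, add_zero]
  exact h.ne'

theorem add_one_ne {z : ℂ} (hz : z ∈ U) : z + 1 ≠ 0 := slitPlane_ne_zero (add_one_mem hz)

theorem hasDerivAt_FF (A B : ℝ) {z : ℂ} (hz : z ∈ U) : HasDerivAt (FF A B) (DF A B z) z := by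
  have h1 : HasDerivAt (fun z : ℂ => Complex.log (z + 1)) (1 / (z + 1)) z :=
    ((hasDerivAt_id z).add_const 1).clog (add_one_mem hz)
  have h2 : HasDerivAt (fun z : ℂ => -((A : ℂ) / 2) * z ^ 2) (-((A : ℂ) / 2) * (2 * z)) z := by
    have := (hasDerivAt_pow 2 z).const_mul (-((A : ℂ) / 2))
    simpa using this
  have h3 : HasDerivAt (fun z : ℂ => (B : ℂ) * z) B z := by
    simpa using (hasDerivAt_id z).const_mul (B : ℂ)
  have h := (h2.add h3).add h1
  have e : DF A B z = -((A : ℂ) / 2) * (2 * z) + B + 1 / (z + 1) := by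
    unfold DF; ring
  rw [e]
  exact h

theorem DF_im_neg (A B : ℝ) (hA : 0 < A) {z : ℂ} (hz : z ∈ U) : (DF A B z).im < 0 := by
  have hzi : 0 < z.im := hz
  have h0 : z + 1 ≠ 0 := add_one_ne hz
  have hn : 0 < normSq (z + 1) := normSq_pos.2 h0
  have : (DF A B z).im = -(A * z.im) + -(z.im / normSq (z + 1)) := by
    unfold DF
    simp [Complex.inv_im, neg_div]
  rw [this]
  have h1 : 0 < A * z.im := mul_pos hA hzi
  have h2 : 0 < z.im / normSq (z + 1) := div_pos hzi hn
  linarith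

/-- data of a level curve -/
structure Level (A B y : ℝ) (X : ℝ → ℝ) : Prop where
  eq : ∀ h : ℝ, 0 < h → (FF A B (X h + h * I)).im = y
  uniq : ∀ h : ℝ, 0 < h → ∀ x : ℝ, (FF A B (x + h * I)).im = y → x = X h
  deriv : ∀ h : ℝ, 0 < h →
        HasDerivAt X (-(DF A B (X h + h * I)).re / (DF A B (X h + h * I)).im) h

theorem mem_U (x h : ℝ) (hh : 0 < h) : (x : ℂ) + h * I ∈ U := by
  show 0 < ((x : ℂ) + h * I).im
  simpa using hh

section
variable {A B y : ℝ} {X : ℝ → ℝ}

/-- the derivative of `Re FF` along the level curve -/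
noncomputable def rho (A B : ℝ) (X : ℝ → ℝ) (h : ℝ) : ℝ :=
  -((DF A B (X h + h * I)).re ^ 2 + (DF A B (X h + h * I)).im ^ 2) / (DF A B (X h + h * I)).im

theorem rho_pos (hA : 0 < A) (h : ℝ) (hh : 0 < h) : 0 < rho A B X h := by
  have hb := DF_im_neg A B hA (mem_U (X h) h hh)
  unfold rho
  rw [neg_div, ← div_neg]
  apply div_pos _ (by linarith)
  have := sq_nonneg ((DF A B (X h + h * I)).re)
  have := pow_pos (neg_pos.2 hb) 2
  nlinarith

theorem deriv_curve (hA : 0 < A) (L : Level A B y X) (h : ℝ) (hh : 0 < h)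
    (Φ Q : ℂ → ℂ) (hΦ : ∀ z ∈ U, HasDerivAt Φ (Q z * DF A B z) z) :
    HasDerivAt (fun h : ℝ => (Φ (X h + h * I)).re)
      (rho A B X h * (Q (X h + h * I)).re) h := by
  have hU := mem_U (X h) h hh
  have hb := DF_im_neg A B hA hU
  have hX := L.deriv h hh
  have hγ : HasDerivAt (fun h : ℝ => ((X h : ℂ) + h * I))
      (((-(DF A B (X h + h * I)).re / (DF A B (X h + h * I)).im : ℝ) : ℂ) + I) h := by
    have h1 := hX.ofReal_comp
    have h2 : HasDerivAt (fun h : ℝ => (h : ℂ) * I) I h := by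
      simpa using (Complex.ofRealCLM.hasDerivAt (x := h)).mul_const I
    exact h1.add h2
  have hc := (hΦ _ hU).scomp h hγ
  have hre := (Complex.reCLM.hasFDerivAt).comp_hasDerivAt h hc
  have key : (((-(DF A B (X h + h * I)).re / (DF A B (X h + h * I)).im : ℝ) : ℂ) + I)
      * DF A B (X h + h * I) = (rho A B X h : ℂ) := by
    have hb' : (DF A B (X h + h * I)).im ≠ 0 := hb.ne
    apply Complex.ext
    · simp only [mul_re, add_re, ofReal_re, I_re, add_zero, add_im, ofReal_im, I_im, zero_add,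
        one_mul]
      unfold rho
      field_simp
      ring
    · simp only [mul_im, add_re, ofReal_re, I_re, add_zero, add_im, ofReal_im, I_im, zero_add,
        one_mul]
      field_simp
      ring
  have e2 : rho A B X h * (Q (X h + h * I)).re =
      Complex.reCLM ((((-(DF A B (X h + h * I)).re / (DF A B (X h + h * I)).im : ℝ) : ℂ) + I) •
      (Q (X h + h * I) * DF A B (X h + h * I))) := by
    have : ((((-(DF A B (X h + h * I)).re / (DF A B (X h + h * I)).im : ℝ) : ℂ) + I) •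
      (Q (X h + h * I) * DF A B (X h + h * I))) = (rho A B X h : ℂ) * Q (X h + h * I) := by
      rw [← key, smul_eq_mul]; ring
    rw [this]
    simp
  rw [e2]
  exact hre

theorem deriv_R (hA : 0 < A) (L : Level A B y X) (h : ℝ) (hh : 0 < h) :
    HasDerivAt (fun h : ℝ => (FF A B (X h + h * I)).re) (rho A B X h) h := by
  have := deriv_curve hA L h hh (FF A B) (fun _ => 1)
    (fun z hz => by simpa using hasDerivAt_FF A B hz)
  simpa using this

theorem u_strictMono (hA : 0 < A) (L : Level A B y X)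
    (Φ Q : ℂ → ℂ) (hΦ : ∀ z ∈ U, HasDerivAt Φ (Q z * DF A B z) z)
    (hQ : ∀ z ∈ U, 1 ≤ (Q z).re) :
    StrictMonoOn (fun h : ℝ => (Φ (X h + h * I)).re) (Ioi 0) := by
  apply strictMonoOn_of_deriv_pos (convex_Ioi 0)
  · intro h hh
    exact (deriv_curve hA L h hh Φ Q hΦ).continuousAt.continuousWithinAt
  · intro h hh
    rw [interior_Ioi] at hh
    rw [(deriv_curve hA L h hh Φ Q hΦ).deriv]
    have h1 := rho_pos (B := B) (X := X) hA h hh
    have h2 := hQ _ (mem_U (X h) h hh)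
    positivity

theorem uR_mono (hA : 0 < A) (L : Level A B y X)
    (Φ Q : ℂ → ℂ) (hΦ : ∀ z ∈ U, HasDerivAt Φ (Q z * DF A B z) z)
    (hQ : ∀ z ∈ U, 1 ≤ (Q z).re) :
    MonotoneOn (fun h : ℝ => (Φ (X h + h * I)).re - (FF A B (X h + h * I)).re) (Ioi 0) := by
  apply monotoneOn_of_deriv_nonneg (convex_Ioi 0)
  · intro h hh
    exact ((deriv_curve hA L h hh Φ Q hΦ).sub
      (deriv_R hA L h hh)).continuousAt.continuousWithinAt
  · intro h hh
    rw [interior_Ioi] at hh
    exact ((deriv_curve hA L h hh Φ Q hΦ).sub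
      (deriv_R hA L h hh)).differentiableAt.differentiableWithinAt
  · intro h hh
    rw [interior_Ioi] at hh
    have hd : deriv (fun h : ℝ => (Φ (X h + h * I)).re - (FF A B (X h + h * I)).re) h = _ :=
      ((deriv_curve hA L h hh Φ Q hΦ).sub (deriv_R hA L h hh)).deriv
    rw [hd]
    have h1 := rho_pos (B := B) (X := X) hA h hh
    have h2 := hQ _ (mem_U (X h) h hh)
    nlinarith

end

theorem shear_of (A B t1 t2 a1 a2 : ℝ) (hA : 0 < A)
    (hL : ∀ y : ℝ, ∃ X : ℝ → ℝ, Level A B y X)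
    (hTop : ∀ (y : ℝ) (X : ℝ → ℝ), Level A B y X →
      Tendsto (fun h : ℝ => (FF A B (X h + h * I)).re) atTop atTop)
    (hBot : ∀ (y : ℝ) (X : ℝ → ℝ), y ≠ 0 → y ≠ Real.pi → Level A B y X →
      Tendsto (fun h : ℝ => (FF A B (X h + h * I)).re) (𝓝[>] 0) atBot)
    (hT1 : ∀ X : ℝ → ℝ, Level A B 0 X → Tendsto X (𝓝[>] 0) (𝓝 t1))
    (hT2 : ∀ X : ℝ → ℝ, Level A B Real.pi X → Tendsto X (𝓝[>] 0) (𝓝 t2))
    (Φ Q : ℂ → ℂ) (hΦ : ∀ z ∈ U, HasDerivAt Φ (Q z * DF A B z) z)
    (hQ : ∀ z ∈ U, 1 ≤ (Q z).re)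
    (hl1 : Tendsto (fun z => (Φ z).re) (𝓝[U] (t1 : ℂ)) (𝓝 a1))
    (hl2 : Tendsto (fun z => (Φ z).re) (𝓝[U] (t2 : ℂ)) (𝓝 a2)) :
    InjOn (fun z => ((Φ z).re : ℂ) + (FF A B z).im * I) U ∧
    (fun z => ((Φ z).re : ℂ) + (FF A B z).im * I) '' U = Slit a1 a2 := by
  -- real and imaginary parts
  have hre : ∀ z, (((Φ z).re : ℂ) + (FF A B z).im * I).re = (Φ z).re := by intro z; simp
  have him : ∀ z, (((Φ z).re : ℂ) + (FF A B z).im * I).im = (FF A B z).im := by intro z; simp
  -- every point of U is on its level curve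
  have hpt : ∀ z ∈ U, ∀ X : ℝ → ℝ, Level A B (FF A B z).im X → z = X z.im + z.im * I := by
    intro z hz X L
    have h1 : z = (z.re : ℂ) + z.im * I := (Complex.re_add_im z).symm
    have h2 := L.uniq z.im hz z.re (by rw [← h1])
    rw [← h2]; exact h1
  -- limits of u at infinity
  have utop : ∀ (y : ℝ) (X : ℝ → ℝ), Level A B y X →
      Tendsto (fun h : ℝ => (Φ (X h + h * I)).re) atTop atTop := by
    intro y X L
    have hm := uR_mono hA L Φ Q hΦ hQ
    refine tendsto_atTop_mono' atTop ?_ (tendsto_atTop_add_const_right atTop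
      ((Φ (X 1 + (1:ℝ) * I)).re - (FF A B (X 1 + (1:ℝ) * I)).re) (hTop y X L))
    filter_upwards [eventually_ge_atTop (1 : ℝ)] with h hh
    have := hm (mem_Ioi.2 one_pos) (mem_Ioi.2 (lt_of_lt_of_le one_pos hh)) hh
    simp only at this
    linarith
  -- limit at zero
  have ubot : ∀ (y : ℝ) (X : ℝ → ℝ), y ≠ 0 → y ≠ Real.pi → Level A B y X →
      Tendsto (fun h : ℝ => (Φ (X h + h * I)).re) (𝓝[>] 0) atBot := by
    intro y X hy0 hyp L
    have hm := uR_mono hA L Φ Q hΦ hQ
    refine tendsto_atBot_mono' (𝓝[>] 0) ?_ (tendsto_atBot_add_const_right (𝓝[>] 0)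
      ((Φ (X 1 + (1:ℝ) * I)).re - (FF A B (X 1 + (1:ℝ) * I)).re) (hBot y X hy0 hyp L))
    have : ∀ᶠ h : ℝ in 𝓝[>] 0, h ∈ Ioc (0:ℝ) 1 := Ioc_mem_nhdsGT one_pos
    filter_upwards [this] with h hh
    have := hm (mem_Ioi.2 hh.1) (mem_Ioi.2 one_pos) hh.2
    simp only at this
    linarith
  have utip : ∀ (y t a : ℝ) (X : ℝ → ℝ), Tendsto X (𝓝[>] 0) (𝓝 t) → 
      Tendsto (fun z => (Φ z).re) (𝓝[U] (t : ℂ)) (𝓝 a) →
      Tendsto (fun h : ℝ => (Φ (X h + h * I)).re) (𝓝[>] 0) (𝓝 a) := by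
    intro y t a X hX hl
    refine hl.comp (tendsto_nhdsWithin_iff.2 ⟨?_, ?_⟩)
    · have h1 : Tendsto (fun h : ℝ => ((X h : ℂ))) (𝓝[>] 0) (𝓝 (t : ℂ)) :=
        (Complex.continuous_ofReal.tendsto t).comp hX
      have h2 : Tendsto (fun h : ℝ => ((h : ℂ) * I)) (𝓝[>] 0) (𝓝 (0 : ℂ)) := by
        have : Tendsto (fun h : ℝ => ((h : ℂ) * I)) (𝓝 0) (𝓝 (((0:ℝ) : ℂ) * I)) :=
          ((Complex.continuous_ofReal).mul continuous_const).tendsto 0
        simp only [ofReal_zero, zero_mul] at this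
        exact this.mono_left nhdsWithin_le_nhds
      simpa using h1.add h2
    · filter_upwards [self_mem_nhdsWithin] with h hh
      exact mem_U _ _ hh
  -- lower bound on the tip levels
  have ulow : ∀ (y t a : ℝ) (X : ℝ → ℝ), Level A B y X → Tendsto X (𝓝[>] 0) (𝓝 t) →
      Tendsto (fun z => (Φ z).re) (𝓝[U] (t : ℂ)) (𝓝 a) → ∀ h : ℝ, 0 < h →
      a < (Φ (X h + h * I)).re := by
    intro y t a X L hX hl h hh
    have hs := u_strictMono hA L Φ Q hΦ hQ
    have h1 : a ≤ (Φ (X (h/2) + (h/2 : ℝ) * I)).re := by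
      refine le_of_tendsto (utip y t a X hX hl) ?_
      have : ∀ᶠ k : ℝ in 𝓝[>] 0, k ∈ Ioc (0:ℝ) (h/2) := Ioc_mem_nhdsGT (by linarith)
      filter_upwards [this] with k hk
      exact hs.monotoneOn (mem_Ioi.2 hk.1) (mem_Ioi.2 (by linarith)) hk.2
    have h2 := hs (mem_Ioi.2 (by linarith : (0:ℝ) < h/2)) (mem_Ioi.2 hh) (by linarith)
    simp only at h2
    linarith
  -- intermediate values
  have uivt : ∀ (y : ℝ) (X : ℝ → ℝ) (c : ℝ), Level A B y X →
      (∃ h : ℝ, 0 < h ∧ (Φ (X h + h * I)).re < c) → ∃ h : ℝ, 0 < h ∧ (Φ (X h + h * I)).re = c := by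
    intro y X c L ⟨h0, hh0, hc0⟩
    obtain ⟨h1, hh1⟩ := ((utop y X L).eventually_ge_atTop c |>.and
      (eventually_ge_atTop h0)).exists
    have hcont : ContinuousOn (fun h : ℝ => (Φ (X h + h * I)).re) (Icc h0 h1) := by
      intro k hk
      exact (deriv_curve hA L k (lt_of_lt_of_le hh0 hk.1) Φ Q
        hΦ).continuousAt.continuousWithinAt
    obtain ⟨k, hk, hk2⟩ := intermediate_value_Icc hh1.2 hcont (⟨hc0.le, hh1.1⟩ :
      c ∈ Icc ((Φ (X h0 + h0 * I)).re) ((Φ (X h1 + h1 * I)).re))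
    exact ⟨k, lt_of_lt_of_le hh0 hk.1, hk2⟩
  constructor
  · intro z hz w hw hzw
    simp only at hzw
    have e1 : (Φ z).re = (Φ w).re := by
      have := congrArg Complex.re hzw; rwa [hre, hre] at this
    have e2 : (FF A B z).im = (FF A B w).im := by
      have := congrArg Complex.im hzw; rwa [him, him] at this
    obtain ⟨X, L⟩ := hL (FF A B z).im
    have hz' := hpt z hz X L
    have hw' := hpt w hw X (e2 ▸ L)
    have hs := u_strictMono hA L Φ Q hΦ hQ
    have : z.im = w.im := by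
      apply hs.injOn (mem_Ioi.2 hz) (mem_Ioi.2 hw)
      simp only
      rw [← hz', ← hw', e1]
    rw [hz', hw', this]
  · ext w
    constructor
    · rintro ⟨z, hz, rfl⟩
      obtain ⟨X, L⟩ := hL (FF A B z).im
      have hz' := hpt z hz X L
      simp only [Slit, Set.mem_ofPred_eq, hre, him]
      constructor
      · rintro ⟨h0, h1⟩
        rw [h0] at L
        have := ulow 0 t1 a1 X L (hT1 X L) hl1 z.im hz
        rw [← hz'] at this
        linarith
      · rintro ⟨h0, h1⟩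
        rw [h0] at L
        have := ulow Real.pi t2 a2 X L (hT2 X L) hl2 z.im hz
        rw [← hz'] at this
        linarith
    · intro hw
      obtain ⟨X, L⟩ := hL w.im
      have hex : ∃ h : ℝ, 0 < h ∧ (Φ (X h + h * I)).re < w.re := by
        by_cases h0 : w.im = 0
        · have h1 : a1 < w.re := by
            by_contra hcon
            exact hw.1 ⟨h0, not_lt.1 hcon⟩
          rw [h0] at L
          have := (utip 0 t1 a1 X (hT1 X L) hl1).eventually (gt_mem_nhds h1)
          obtain ⟨h, hh⟩ := (this.and self_mem_nhdsWithin).exists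
          exact ⟨h, hh.2, hh.1⟩
        · by_cases hp : w.im = Real.pi
          · have h1 : a2 < w.re := by
              by_contra hcon
              exact hw.2 ⟨hp, not_lt.1 hcon⟩
            rw [hp] at L
            have := (utip Real.pi t2 a2 X (hT2 X L) hl2).eventually (gt_mem_nhds h1)
            obtain ⟨h, hh⟩ := (this.and self_mem_nhdsWithin).exists
            exact ⟨h, hh.2, hh.1⟩
          · have := (ubot w.im X h0 hp L).eventually (eventually_lt_atBot w.re)
            obtain ⟨h, hh⟩ := (this.and self_mem_nhdsWithin).exists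
            exact ⟨h, hh.2, hh.1⟩
      obtain ⟨h, hh, he⟩ := uivt w.im X w.re L hex
      refine ⟨X h + h * I, mem_U _ _ hh, ?_⟩
      apply Complex.ext
      · simp only [hre]; exact he
      · simp only [him]; exact L.eq h hh

end Pool.Agent.TH371.Harm
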